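import Pool.Agent.X115.HS.Stm2

set_option autoImplicit false

namespace Pool.Agent.X28.HS.INT

open MeasureTheory Set Filter Topology Real

open Pool.Agent.X115.HS

theorem t_CON : S_CON := by
  intro n w e hw he hc
  have h1 : ContinuousOn (Function.uncurry fun (t : ℝ) (x : X n) => w x t * e x) (Ici 0 ×ˢ univ) := by
    have h2 : ContinuousOn (fun p : ℝ × X n => w p.2 p.1) (Ici 0 ×ˢ univ) :=
      hw.comp (f := fun p : ℝ × X n => (p.2, p.1)) (by fun_prop) (fun p hp => hp.1)
    exact h2.mul (Continuous.continuousOn (by fun_prop))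
  exact continuousOn_integral_of_compact_support (k := tsupport e) hc h1 (fun t x _ hx => by
    rw [image_eq_zero_of_notMem_tsupport hx, mul_zero])

/-- the extension to negative times -/
noncomputable def ext {n : ℕ} (w wt : X n → ℝ → ℝ) (x : X n) (t : ℝ) : ℝ := w x (max t 0) + min t 0 * wt x 0

lemma ext_der {n : ℕ} {w wt : X n → ℝ → ℝ} (h : ∀ x, ∀ t : ℝ, 0 ≤ t → HasDerivWithinAt (w x) (wt x t) (Ici 0) t)
    (x : X n) (t : ℝ) : HasDerivAt (ext w wt x) (wt x (max t 0)) t := by
  have hr : ∀ t : ℝ, 0 ≤ t → HasDerivWithinAt (ext w wt x) (wt x (max t 0)) (Ici 0) t := by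
    intro t ht
    rw [max_eq_left ht]
    refine (h x t ht).congr (fun s hs => ?_) ?_
    · unfold ext
      rw [max_eq_left hs, min_eq_right hs]
      ring
    · unfold ext
      rw [max_eq_left ht, min_eq_right ht]
      ring
  have hl : ∀ t : ℝ, t ≤ 0 → HasDerivWithinAt (ext w wt x) (wt x (max t 0)) (Iic 0) t := by
    intro t ht
    rw [max_eq_right ht]
    have h1 : HasDerivWithinAt (fun s : ℝ => w x 0 + s * wt x 0) (wt x 0) (Iic 0) t := by
      have h2 := ((hasDerivAt_id t).mul_const (wt x 0)).const_add (w x 0)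
      have h3 : HasDerivAt (fun s : ℝ => w x 0 + s * wt x 0) (wt x 0) t := by
        refine h2.congr_deriv ?_
        ring
      exact h3.hasDerivWithinAt
    refine h1.congr (fun s hs => ?_) ?_
    · unfold ext
      rw [max_eq_right hs, min_eq_left hs]
    · unfold ext
      rw [max_eq_right ht, min_eq_left ht]
  rcases lt_trichotomy t 0 with ht | ht | ht
  · exact (hl t ht.le).hasDerivAt (Iic_mem_nhds ht)
  · subst ht
    have h1 := (hr 0 le_rfl).union (hl 0 le_rfl)
    rw [Ici_union_Iic] at h1
    exact hasDerivWithinAt_univ.1 h1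
  · exact (hr t ht.le).hasDerivAt (Ici_mem_nhds ht)

lemma max_cont {n : ℕ} {w : X n → ℝ → ℝ} (hw : ContinuousOn (fun p : X n × ℝ => w p.1 p.2) {p | 0 ≤ p.2}) :
    Continuous (fun p : X n × ℝ => w p.1 (max p.2 0)) := by
  have h1 : ContinuousOn (fun p : X n × ℝ => w p.1 (max p.2 0)) univ :=
    hw.comp (f := fun p : X n × ℝ => (p.1, max p.2 0)) (by fun_prop) (fun p _ => by
      rw [Set.mem_ofPred_eq]
      exact le_max_right _ _)
  exact continuousOn_univ.1 h1

theorem t_INT : S_INT := by
  intro n w wt e hw hwt hd he hc t ht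
  have hcw := max_cont hw
  have hcwt := max_cont hwt
  have hcx : ∀ τ : ℝ, Continuous fun x => ext w wt x τ * e x := by
    intro τ
    unfold ext
    have h1 : Continuous fun x : X n => w x (max τ 0) := hcw.comp (f := fun x : X n => (x, τ)) (by fun_prop)
    have h2 : Continuous fun x : X n => wt x 0 := by
      have := hcwt.comp (f := fun x : X n => (x, (0 : ℝ))) (by fun_prop)
      simpa [Function.comp_def] using this
    exact (h1.add (continuous_const.mul h2)).mul he
  have hcx' : ∀ τ : ℝ, Continuous fun x => wt x (max τ 0) * e x := by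
    intro τ
    have h1 : Continuous fun x : X n => wt x (max τ 0) := hcwt.comp (f := fun x : X n => (x, τ)) (by fun_prop)
    exact h1.mul he
  obtain ⟨M, hM⟩ := ((hc.prod (isCompact_Icc (a := t - 1) (b := t + 1))).image_of_continuousOn
    hcwt.continuousOn).isBounded.exists_norm_le
  have hM' : ∀ x ∈ tsupport e, ∀ τ ∈ Icc (t - 1) (t + 1), ‖wt x (max τ 0)‖ ≤ M := by
    intro x hx τ hτ
    exact hM _ ⟨(x, τ), ⟨hx, hτ⟩, rfl⟩
  have key := hasDerivAt_integral_of_dominated_loc_of_deriv_le (μ := (volume : Measure (X n)))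
    (F := fun τ x => ext w wt x τ * e x) (F' := fun τ x => wt x (max τ 0) * e x) (x₀ := t)
    (s := Icc (t - 1) (t + 1)) (bound := fun x => |M| * ‖e x‖)
    (Icc_mem_nhds (by linarith) (by linarith))
    (Eventually.of_forall fun τ => (hcx τ).aestronglyMeasurable)
    ((hcx t).integrable_of_hasCompactSupport hc.mul_left)
    (hcx' t).aestronglyMeasurable
    (Eventually.of_forall fun x τ hτ => by
      by_cases hx : x ∈ tsupport e
      · rw [norm_mul]
        exact mul_le_mul_of_nonneg_right ((hM' x hx τ hτ).trans (le_abs_self M)) (norm_nonneg _)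
      · rw [image_eq_zero_of_notMem_tsupport hx]
        simp)
    ((he.norm.integrable_of_hasCompactSupport hc.norm).const_mul |M|)
    (Eventually.of_forall fun x τ _ => (ext_der hd x τ).mul_const (e x))
  have h2 : HasDerivWithinAt (fun τ => ∫ x, ext w wt x τ * e x) (∫ x, wt x (max t 0) * e x) (Ici 0) t :=
    key.2.hasDerivWithinAt
  rw [max_eq_left ht] at h2
  refine h2.congr (fun τ hτ => ?_) ?_
  · congr 1
    funext x
    unfold ext
    rw [max_eq_left hτ, min_eq_right hτ]
    ring
  · congr 1
    funext x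
    unfold ext
    rw [max_eq_left ht, min_eq_right ht]
    ring

end Pool.Agent.X28.HS.INT
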